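import Pool.Agent.Q5.MinRank.Defs

set_option autoImplicit false

open Matrix

namespace Q5.MinRank

variable {F : Type*} [Field F] {m n : ℕ}

theorem mr_le {A : PMat F m n} {B : Matrix (Fin m) (Fin n) F} (h : Completes A B) {r : ℕ}
    (hr : B.rank ≤ r) : mr A ≤ r := by
  have h1 : B.rank ∈ {r | ∃ B, Completes A B ∧ B.rank = r} := ⟨B, h, rfl⟩
  exact (Nat.sInf_le h1).trans hr

theorem le_mr {A : PMat F m n} {r : ℕ} (h : ∀ B, Completes A B → r ≤ B.rank) : r ≤ mr A := by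
  have hne : {r | ∃ B, Completes A B ∧ B.rank = r}.Nonempty :=
    ⟨_, (fun i j => (A i j).getD 0 : Matrix (Fin m) (Fin n) F), fun i j a h => by simp [h], rfl⟩
  obtain ⟨B, hB, hr⟩ := Nat.sInf_mem hne
  rw [mr, ← hr]
  exact h B hB

theorem mrb_le {A : PMat F m n} {b : ℕ} {B : Matrix (Fin m × Fin b) (Fin n × Fin b) F}
    (h : BlockCompletes A b B) {r : ℕ} (hr : B.rank ≤ r) : mrb A b ≤ r := by
  have h1 : B.rank ∈ {r | ∃ B, BlockCompletes A b B ∧ B.rank = r} := ⟨B, h, rfl⟩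
  exact (Nat.sInf_le h1).trans hr

theorem le_mrb {A : PMat F m n} {b r : ℕ} (h : ∀ B, BlockCompletes A b B → r ≤ B.rank) :
    r ≤ mrb A b := by
  have hne : {r | ∃ B, BlockCompletes A b B ∧ B.rank = r}.Nonempty :=
    ⟨_, (fun p q => if p.2 = q.2 then (A p.1 q.1).getD 0 else 0 :
        Matrix (Fin m × Fin b) (Fin n × Fin b) F),
      fun i j a h s t => by simp [h], rfl⟩
  obtain ⟨B, hB, hr⟩ := Nat.sInf_mem hne
  rw [mrb, ← hr]
  exact h B hB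

theorem tmr_eq {A : PMat F m n} {r : ℕ}
    (h1 : ∀ T, IsTriangular T → T ⊆ known A → mr (restrict A T) ≤ r)
    (h2 : ∃ T, IsMaxTriangular (known A) T ∧ r ≤ mr (restrict A T)) : tmr A = r := by
  obtain ⟨T, hT, hr⟩ := h2
  have hg : IsGreatest {r | ∃ T, IsMaxTriangular (known A) T ∧ mr (restrict A T) = r} r := by
    refine ⟨⟨T, hT, le_antisymm (h1 T hT.1 hT.2.1) hr⟩, ?_⟩
    rintro s ⟨S, hS, rfl⟩
    exact h1 S hS.1 hS.2.1
  exact hg.csSup_eq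

theorem fmr_eq {A : PMat F m n} {r : ℕ} (h1 : ∀ b, 1 ≤ b → r * b ≤ mrb A b)
    (h2 : mrb A 2 ≤ r * 2) : fmr A = r := by
  have hlow : ∀ b : {b : ℕ // 1 ≤ b}, (r : ℝ) ≤ (mrb A b : ℝ) / (b : ℕ) := by
    rintro ⟨b, hb⟩
    have hb' : (0 : ℝ) < b := by exact_mod_cast hb
    rw [le_div_iff₀ hb']
    exact_mod_cast h1 b hb
  have : Nonempty {b : ℕ // 1 ≤ b} := ⟨⟨1, le_rfl⟩⟩
  apply le_antisymm
  · have h3 : fmr A ≤ (mrb A 2 : ℝ) / (2 : ℕ) :=
      ciInf_le ⟨(r : ℝ), by rintro _ ⟨b, rfl⟩; exact hlow b⟩ (⟨2, by norm_num⟩ : {b : ℕ // 1 ≤ b})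
    refine h3.trans ?_
    rw [div_le_iff₀ (by norm_num)]
    exact_mod_cast h2
  · exact le_ciInf hlow

omit [Field F] in
theorem mem_known {A : PMat F m n} {i : Fin m} {j : Fin n} : (i, j) ∈ known A ↔ A i j ≠ none :=
  Iff.rfl

end Q5.MinRank
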