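import Pool.Agent.Q5.MinRank.Basic

set_option autoImplicit false

/-!
# Fields with at least three elements

Two copies of the cycle pattern of order three (joined by known zeros) and a full identity matrix of
order three (joined to them by unspecified blocks).
-/

open Matrix

namespace Q5.MinRank.Cycle

variable {F : Type*} [Field F]

/-- The block of an index. -/
def blk (i : Fin 9) : Fin 3 := ⟨i / 3, by omega⟩

/-- The position of an index in its block. -/
def pos (i : Fin 9) : Fin 3 := ⟨i % 3, by omega⟩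

/-- The index with the given block and position. -/
def g (a p : Fin 3) : Fin 9 := ⟨3 * a + p, by omega⟩

@[simp] theorem blk_g (a p : Fin 3) : blk (g a p) = a := by
  revert a p; decide

@[simp] theorem pos_g (a p : Fin 3) : pos (g a p) = p := by
  revert a p; decide

theorem g_blk_pos (i : Fin 9) : g (blk i) (pos i) = i := by
  revert i; decide

/-- The cycle pattern of order three, with the values `1, 1, 1, 1, 1, x`. -/
def cyc (x : F) (p q : Fin 3) : Option F :=
  if p = q then some 1 else if q = p + 1 then (if p = 2 then some x else some 1) else none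

/-- The partial matrix of order nine. -/
def A9 (x : F) : PMat F 9 9 := fun i j =>
  if blk i = 2 ∧ blk j = 2 then some (if pos i = pos j then 1 else 0)
  else if blk i = 2 ∨ blk j = 2 then none
  else if blk i ≠ blk j then some 0
  else cyc x (pos i) (pos j)

theorem A9_g (x : F) (a b p q : Fin 3) : A9 x (g a p) (g b q) =
    if a = 2 ∧ b = 2 then some (if p = q then 1 else 0)
    else if a = 2 ∨ b = 2 then none
    else if a ≠ b then some 0
    else cyc x p q := by
  simp [A9]

theorem cyc_minor {x : F} (hx : x ≠ 1) (C : Fin 3 → Fin 3 → F)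
    (h : ∀ p q a, cyc x p q = some a → C p q = a) :
    ∃ r c : Fin 2 → Fin 3, C (r 0) (c 0) * C (r 1) (c 1) - C (r 0) (c 1) * C (r 1) (c 0) ≠ 0 := by
  have h00 : C 0 0 = 1 := h 0 0 1 rfl
  have h11 : C 1 1 = 1 := h 1 1 1 rfl
  have h22 : C 2 2 = 1 := h 2 2 1 rfl
  have h01 : C 0 1 = 1 := h 0 1 1 rfl
  have h12 : C 1 2 = 1 := h 1 2 1 rfl
  have h20 : C 2 0 = x := h 2 0 x rfl
  by_contra hcon
  push Not at hcon
  have e1 := hcon ![1, 2] ![1, 2]
  have e2 := hcon ![0, 2] ![0, 1]
  simp only [cons_val_zero, cons_val_one, h00, h11, h22, h01, h12, h20] at e1 e2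
  apply hx
  linear_combination -e1 - e2

theorem four_le_rank {x : F} (hx : x ≠ 1) (B : Matrix (Fin 9) (Fin 9) F)
    (hB : Completes (A9 x) B) : 4 ≤ B.rank := by
  have hzero : ∀ a b : Fin 3, a ≠ 2 → b ≠ 2 → a ≠ b → ∀ p q, B (g a p) (g b q) = 0 := by
    intro a b ha hb hab p q
    apply hB
    rw [A9_g, if_neg (fun h => ha h.1), if_neg (fun h => h.elim ha hb), if_pos hab]
  have hcyc : ∀ a : Fin 3, a ≠ 2 → ∀ p q v, cyc x p q = some v → B (g a p) (g a q) = v := by
    intro a ha p q v hv
    apply hB
    rw [A9_g, if_neg (fun h => ha h.1), if_neg (fun h => h.elim ha ha), if_neg (fun h => h rfl)]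
    exact hv
  obtain ⟨r0, c0, h0⟩ := cyc_minor hx (fun p q => B (g 0 p) (g 0 q)) (hcyc 0 (by decide))
  obtain ⟨r1, c1, h1⟩ := cyc_minor hx (fun p q => B (g 1 p) (g 1 q)) (hcyc 1 (by decide))
  set M0 : Matrix (Fin 2) (Fin 2) F := fun s t => B (g 0 (r0 s)) (g 0 (c0 t)) with hM0
  set M1 : Matrix (Fin 2) (Fin 2) F := fun s t => B (g 1 (r1 s)) (g 1 (c1 t)) with hM1
  have hsub : B.submatrix (Sum.elim (fun s => g 0 (r0 s)) (fun s => g 1 (r1 s)))
      (Sum.elim (fun s => g 0 (c0 s)) (fun s => g 1 (c1 s))) = fromBlocks M0 0 0 M1 := by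
    ext i j
    rcases i with i | i <;> rcases j with j | j
    · rfl
    · exact hzero 0 1 (by decide) (by decide) (by decide) _ _
    · exact hzero 1 0 (by decide) (by decide) (by decide) _ _
    · rfl
  have hdet : (fromBlocks M0 0 0 M1).det ≠ 0 := by
    rw [det_fromBlocks_zero₂₁, det_fin_two, det_fin_two]
    exact mul_ne_zero h0 h1
  have h2 := rank_of_isUnit (fromBlocks M0 0 0 M1)
    ((isUnit_iff_isUnit_det _).mpr (isUnit_iff_ne_zero.mpr hdet))
  have h3 := rank_submatrix_le B (Sum.elim (fun s => g 0 (r0 s)) (fun s => g 1 (r1 s)))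
      (Sum.elim (fun s => g 0 (c0 s)) (fun s => g 1 (c1 s)))
  rw [hsub, h2] at h3
  simpa using h3

/-! ### The block completion of rank six -/

/-- The left factor of the block completion of the cycle. -/
noncomputable def U (x : F) (p : Fin 3) : Matrix (Fin 2) (Fin 3) F :=
  if p = 0 then !![0, -(x - 1) / x, x - 1; 0, (x - 1) / x, 0]
  else if p = 1 then !![x - 1, 0, 0; -(x - 1), 0, x - 1]
  else !![x - 1, 0, 0; 0, x - 1, 0]

/-- The right factor of the block completion of the cycle. -/
noncomputable def V (x : F) (p : Fin 3) : Matrix (Fin 3) (Fin 2) F :=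
  if p = 0 then !![x / (x - 1), 0; 0, x / (x - 1); 1 / (x - 1), 1 / (x - 1)]
  else if p = 1 then !![1 / (x - 1), 0; 0, x / (x - 1); 1 / (x - 1), 1 / (x - 1)]
  else !![1 / (x - 1), 0; 0, 1 / (x - 1); 1 / (x - 1), 1 / (x - 1)]

theorem UV {x : F} (hx0 : x ≠ 0) (hx1 : x ≠ 1) (p q : Fin 3) (a : F) (h : cyc x p q = some a)
    (s t : Fin 2) : ∑ c, U x p s c * V x q c t = if s = t then a else 0 := by
  have hx : x - 1 ≠ 0 := sub_ne_zero.mpr hx1
  fin_cases p <;> fin_cases q <;> simp [cyc] at h <;>
    first
    | (subst h; fin_cases s <;> fin_cases t <;>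
        (simp [U, V, Fin.sum_univ_three]; try field_simp) <;> try ring)

/-- The left factor of the block completion. -/
noncomputable def PP (x : F) : Matrix (Fin 9 × Fin 2) (Fin 2 × Fin 3) F := fun i k =>
  if blk i.1 = 2 then (if i.2 = k.1 ∧ pos i.1 = k.2 then 1 else 0)
  else if (blk i.1 : ℕ) = k.1 then U x (pos i.1) i.2 k.2 else 0

/-- The right factor of the block completion. -/
noncomputable def QQ (x : F) : Matrix (Fin 2 × Fin 3) (Fin 9 × Fin 2) F := fun k j =>
  if blk j.1 = 2 then (if j.2 = k.1 ∧ pos j.1 = k.2 then 1 else 0)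
  else if (blk j.1 : ℕ) = k.1 then V x (pos j.1) k.2 j.2 else 0

theorem blockCompletes {x : F} (hx0 : x ≠ 0) (hx1 : x ≠ 1) :
    BlockCompletes (A9 x) 2 (PP x * QQ x) := by
  intro i j a h s t
  rw [mul_apply, Fintype.sum_prod_type]
  unfold A9 at h
  split_ifs at h with h1 h2 h3 h4
  · -- both in the last block
    simp only [Option.some.injEq] at h
    subst h
    simp only [PP, QQ, h1.1, h1.2, if_true, h2, mul_ite, mul_one, mul_zero]
    rw [Fintype.sum_eq_single s, Fintype.sum_eq_single (pos j)]
    · by_cases hst : s = t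
      · simp [hst]
      · simp [hst, Ne.symm hst]
    · intro c hc
      simp [hc.symm]
    · intro c hc
      simp [hc.symm]
  · simp only [Option.some.injEq] at h
    subst h
    simp only [PP, QQ, h1.1, h1.2, if_true, mul_ite, mul_one, mul_zero, ite_self]
    apply Finset.sum_eq_zero
    intro c _
    apply Finset.sum_eq_zero
    intro d _
    split_ifs with e1 e2
    · exact absurd (e2.2.trans e1.2.symm) h2
    · rfl
    · rfl
  · -- different blocks
    simp only [Option.some.injEq] at h
    subst h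
    have hi : blk i ≠ 2 := fun e => h3 (Or.inl e)
    have hj : blk j ≠ 2 := fun e => h3 (Or.inr e)
    simp only [PP, QQ, if_neg hi, if_neg hj, ite_self]
    apply Finset.sum_eq_zero
    intro c _
    apply Finset.sum_eq_zero
    intro d _
    by_cases e1 : (blk i : ℕ) = c
    · have e2 : (blk j : ℕ) ≠ c := fun e2 => h4 (Fin.ext (e1.trans e2.symm))
      rw [if_neg e2, mul_zero]
    · rw [if_neg e1, zero_mul]
  · have hi : blk i ≠ 2 := fun e => h3 (Or.inl e)
    have hj : blk j ≠ 2 := fun e => h3 (Or.inr e)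
    have hij : blk i = blk j := not_not.mp h4
    simp only [PP, QQ, if_neg hi, if_neg hj]
    have hlt : (blk i : ℕ) < 2 := by
      have := (blk i).isLt
      have : (blk i : ℕ) ≠ 2 := fun e => hi (Fin.ext e)
      omega
    rw [Fintype.sum_eq_single (⟨blk i, hlt⟩ : Fin 2)]
    · simp only [hij, if_true]
      exact UV hx0 hx1 _ _ _ h s t
    · intro c hc
      apply Finset.sum_eq_zero
      intro d _
      have : (blk i : ℕ) ≠ c := fun e => hc (Fin.ext e.symm)
      rw [if_neg this, zero_mul]

theorem mrb_two_le {x : F} (hx0 : x ≠ 0) (hx1 : x ≠ 1) : mrb (A9 x) 2 ≤ 3 * 2 := by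
  apply mrb_le (blockCompletes hx0 hx1)
  refine (rank_mul_le_left _ _).trans ((rank_le_card_width _).trans ?_)
  simp

theorem le_mrb_A9 (x : F) (b : ℕ) : 3 * b ≤ mrb (A9 x) b := by
  apply le_mrb
  intro B hB
  have h := rank_submatrix_le B (fun k : Fin 3 × Fin b => (g 2 k.1, k.2))
    (fun k : Fin 3 × Fin b => (g 2 k.1, k.2))
  have h1 : B.submatrix (fun k : Fin 3 × Fin b => (g 2 k.1, k.2))
      (fun k : Fin 3 × Fin b => (g 2 k.1, k.2)) = 1 := by
    ext ⟨p, s⟩ ⟨q, t⟩
    rw [submatrix_apply, one_apply]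
    have h2 := hB (g 2 p) (g 2 q) (if p = q then 1 else 0) (by rw [A9_g]; simp) s t
    dsimp only
    rw [h2]
    by_cases hpq : p = q <;> by_cases hst : s = t <;> simp [hpq, hst]
  rw [h1, rank_one] at h
  simpa using h

/-! ### Triangular subpatterns -/

/-- A triangular subpattern misses one of the entries of the cycle. -/
theorem cyc_complete {x : F} (hx0 : x ≠ 0) (T : Set (Fin 9 × Fin 9)) (hT : IsTriangular T)
    (hTJ : T ⊆ known (A9 x)) (a : Fin 3) (ha : a ≠ 2) :
    ∃ u v : Fin 3 → F, ∀ p q c, (g a p, g a q) ∈ T → cyc x p q = some c → u p * v q = c := by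
  have hn : ∀ p q, cyc x p q = none → (g a p, g a q) ∉ T := by
    intro p q hpq hmem
    apply hTJ hmem
    dsimp only
    rw [A9_g, if_neg (fun h => ha h.1), if_neg (fun h => h.elim ha ha), if_neg (fun h => h rfl)]
    exact hpq
  have h02 := hn 0 2 rfl
  have h10 := hn 1 0 rfl
  have hmiss : (g a 0, g a 0) ∉ T ∨ (g a 1, g a 2) ∉ T := by
    by_contra hcon
    push Not at hcon
    rcases hT _ _ _ _ hcon.1 hcon.2 with h | h
    · exact h02 h
    · exact h10 h
  rcases hmiss with hm | hm
  · refine ⟨![1, 1, 1], ![x, 1, 1], ?_⟩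
    intro p q c hmem hc
    fin_cases p <;> fin_cases q <;> simp [cyc] at hc <;>
      first
      | exact absurd hmem hm
      | (subst hc; simp)
  · refine ⟨![x⁻¹, x⁻¹, 1], ![x, x, 1], ?_⟩
    intro p q c hmem hc
    fin_cases p <;> fin_cases q <;> simp [cyc] at hc <;>
      first
      | exact absurd hmem hm
      | (subst hc; simp [hx0])

theorem of_ne_two : ∀ a : Fin 3, a ≠ 2 → a = 0 ∨ a = 1 := by decide

theorem mr_restrict_le {x : F} (hx0 : x ≠ 0) (T : Set (Fin 9 × Fin 9)) (hT : IsTriangular T)
    (hTJ : T ⊆ known (A9 x)) : mr (restrict (A9 x) T) ≤ 3 := by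
  classical
  by_cases hK : ∃ i j, (i, j) ∈ T ∧ blk i = 2
  · -- the subpattern is contained in the last block
    obtain ⟨i, j, hij, hi⟩ := hK
    have hj : blk j = 2 := by
      by_contra hj
      apply hTJ hij
      simp [A9, hi, hj]
    have hall : ∀ k l, (k, l) ∈ T → blk k = 2 := by
      intro k l hkl
      by_contra hk
      have hl : blk l ≠ 2 := by
        intro hl
        apply hTJ hkl
        simp [A9, hk, hl]
      rcases hT _ _ _ _ hij hkl with h | h
      · apply hTJ h
        simp [A9, hi, hl]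
      · apply hTJ h
        simp [A9, hk, hj]
    set P : Matrix (Fin 9) (Fin 3) F := fun i p => if i = g 2 p then 1 else 0
    set Q : Matrix (Fin 3) (Fin 9) F := fun p j => (restrict (A9 x) T (g 2 p) j).getD 0
    apply mr_le (B := P * Q)
    · intro k l c hc
      have hmem : (k, l) ∈ T := by
        by_contra hcon
        simp [restrict, hcon] at hc
      have hk := hall k l hmem
      have hkg : k = g 2 (pos k) := by rw [← hk, g_blk_pos]
      rw [mul_apply, Fintype.sum_eq_single (pos k)]
      · simp only [P, Q]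
        rw [if_pos hkg, one_mul, ← hkg, hc]
        rfl
      · intro p hp
        simp only [P]
        rw [if_neg, zero_mul]
        intro h
        apply hp
        rw [h, pos_g]
    · exact (rank_mul_le_left _ _).trans ((rank_le_card_width _).trans (by simp))
  · push Not at hK
    obtain ⟨u0, v0, h0⟩ := cyc_complete hx0 T hT hTJ 0 (by decide)
    obtain ⟨u1, v1, h1⟩ := cyc_complete hx0 T hT hTJ 1 (by decide)
    set P : Matrix (Fin 9) (Fin 2) F := fun i a =>
      if (blk i : ℕ) = a then (if a = 0 then u0 (pos i) else u1 (pos i)) else 0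
    set Q : Matrix (Fin 2) (Fin 9) F := fun a j =>
      if (blk j : ℕ) = a then (if a = 0 then v0 (pos j) else v1 (pos j)) else 0
    apply mr_le (B := P * Q)
    · intro i j c hc
      have hmem : (i, j) ∈ T := by
        by_contra hcon
        simp [restrict, hcon] at hc
      have hc' : A9 x i j = some c := by simpa [restrict, hmem] using hc
      have hi := hK i j hmem
      have hj : blk j ≠ 2 := by
        intro hj
        apply hTJ hmem
        simp [A9, hi, hj]
      rw [← g_blk_pos i, ← g_blk_pos j] at hc' hmem ⊢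
      generalize blk i = a at *
      generalize blk j = b at *
      generalize pos i = p at *
      generalize pos j = q at *
      rw [A9_g] at hc'
      rw [mul_apply, Fin.sum_univ_two]
      simp only [P, Q, blk_g, pos_g]
      have ha' : a = 0 ∨ a = 1 := of_ne_two a hi
      have hb' : b = 0 ∨ b = 1 := of_ne_two b hj
      rcases ha' with rfl | rfl <;> rcases hb' with rfl | rfl
      · simp at hc'
        simpa using h0 p q c hmem hc'
      · simp at hc'
        simp [← hc']
      · simp at hc'
        simp [← hc']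
      · simp at hc'
        simpa using h1 p q c hmem hc'
    · exact (rank_mul_le_left _ _).trans ((rank_le_card_width _).trans (by simp))

/-- The last block. -/
def lastBlock : Set (Fin 9 × Fin 9) := {p | blk p.1 = 2 ∧ blk p.2 = 2}

theorem lastBlock_max (x : F) : IsMaxTriangular (known (A9 x)) lastBlock := by
  refine ⟨?_, ?_, ?_⟩
  · intro i j k l h1 h2
    exact Or.inl ⟨h1.1, h2.2⟩
  · rintro ⟨i, j⟩ h
    rw [mem_known]
    simp only [lastBlock, Set.mem_ofPred_eq] at h
    simp [A9, h.1, h.2]
  · intro S hS hSJ hle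
    apply Set.Subset.antisymm _ hle
    rintro ⟨k, l⟩ hkl
    have h22 : (g 2 0, g 2 0) ∈ S := hle ⟨by simp, by simp⟩
    have hiff : blk k = 2 ↔ blk l = 2 := by
      by_contra hcon
      apply hSJ hkl
      by_cases hk : blk k = 2 <;> by_cases hl : blk l = 2 <;> simp_all [A9]
    by_contra hcon
    have hk : blk k ≠ 2 := fun hk => hcon ⟨hk, hiff.mp hk⟩
    have hl : blk l ≠ 2 := fun hl => hk (hiff.mpr hl)
    rcases hS _ _ _ _ h22 hkl with h | h
    · apply hSJ h
      simp [A9, hl]
    · apply hSJ h
      simp [A9, hk]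

theorem three_le (x : F) : 3 ≤ mr (restrict (A9 x) lastBlock) := by
  apply le_mr
  intro B hB
  have h := rank_submatrix_le B (g 2) (g 2)
  have h1 : B.submatrix (g 2) (g 2) = 1 := by
    ext p q
    rw [submatrix_apply, one_apply]
    apply hB
    have : (g 2 p, g 2 q) ∈ lastBlock := ⟨by simp, by simp⟩
    simp only [restrict, this, if_true]
    rw [A9_g]
    simp
  rw [h1, rank_one] at h
  simpa using h

theorem main {x : F} (hx0 : x ≠ 0) (hx1 : x ≠ 1) :
    tmr (A9 x) = 3 ∧ fmr (A9 x) = (3 : ℕ) ∧ 4 ≤ mr (A9 x) :=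
  ⟨tmr_eq (fun T hT hTJ => mr_restrict_le hx0 T hT hTJ) ⟨lastBlock, lastBlock_max x, three_le x⟩,
    fmr_eq (fun b _ => le_mrb_A9 x b) (mrb_two_le hx0 hx1),
    le_mr fun B hB => four_le_rank hx1 B hB⟩

end Q5.MinRank.Cycle
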