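import Mathlib

set_option autoImplicit false

/-!
# Partial matrices: minimal rank, triangular minimal rank, fractional minimal rank
-/

namespace Q5.MinRank

variable {F : Type*} [Field F] {m n : ℕ}

/-- A partial `m × n` matrix over `F`: the entry at `(i, j)` is specified and equal to `a` if
`A i j = some a`, and it is unspecified if `A i j = none`. -/
abbrev PMat (F : Type*) (m n : ℕ) : Type _ := Fin m → Fin n → Option F

/-- The pattern of knowns: the set of the positions of the specified entries. -/
def known (A : PMat F m n) : Set (Fin m × Fin n) := {p | A p.1 p.2 ≠ none}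

/-- `B` is a completion of `A`: it has the specified entries of `A`. -/
def Completes (A : PMat F m n) (B : Matrix (Fin m) (Fin n) F) : Prop :=
  ∀ i j a, A i j = some a → B i j = a

/-- The minimal rank `mr(A)`: the least rank of a completion. -/
noncomputable def mr (A : PMat F m n) : ℕ := sInf {r | ∃ B, Completes A B ∧ B.rank = r}

/-- A pattern `T` is triangular if `(i,j), (k,l) ∈ T` implies `(i,l) ∈ T` or `(k,j) ∈ T`. -/
def IsTriangular (T : Set (Fin m × Fin n)) : Prop :=
  ∀ i j k l, (i, j) ∈ T → (k, l) ∈ T → (i, l) ∈ T ∨ (k, j) ∈ T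

/-- `T` is a maximal triangular subpattern of `J`. -/
def IsMaxTriangular (J T : Set (Fin m × Fin n)) : Prop :=
  IsTriangular T ∧ T ⊆ J ∧ ∀ S, IsTriangular S → S ⊆ J → T ⊆ S → S = T

open Classical in
/-- `A | T`: the partial matrix keeping only the known entries of `A` at the positions in `T`. -/
noncomputable def restrict (A : PMat F m n) (T : Set (Fin m × Fin n)) : PMat F m n :=
  fun i j => if (i, j) ∈ T then A i j else none

/-- The triangular minimal rank `tmr(A)`: the maximum of the minimal ranks of the restrictions of
`A` to the maximal triangular subpatterns of the pattern of knowns. -/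
noncomputable def tmr (A : PMat F m n) : ℕ :=
  sSup {r | ∃ T, IsMaxTriangular (known A) T ∧ mr (restrict A T) = r}

/-- `B` is a completion of `A ⊗ I_b`: the block of `B` at a position with the known entry `a` is
`a I_b`. -/
def BlockCompletes (A : PMat F m n) (b : ℕ) (B : Matrix (Fin m × Fin b) (Fin n × Fin b) F) : Prop :=
  ∀ i j a, A i j = some a → ∀ s t, B (i, s) (j, t) = if s = t then a else 0

/-- `mr_b(A) = mr(A ⊗ I_b)`: the least rank of a completion of `A ⊗ I_b`. -/
noncomputable def mrb (A : PMat F m n) (b : ℕ) : ℕ := sInf {r | ∃ B, BlockCompletes A b B ∧ B.rank = r}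

/-- The fractional minimal rank `fmr(A)`: the infimum of `mr_b(A) / b` over all integers `b ≥ 1`. -/
noncomputable def fmr (A : PMat F m n) : ℝ := ⨅ b : {b : ℕ // 1 ≤ b}, (mrb A b : ℝ) / (b : ℕ)

end Q5.MinRank
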