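import Pool.Agent.Q5.MinRank.Basic

set_option autoImplicit false

/-!
# The field with two elements

The partial matrix `[0 1 ? 1; ? 0 1 1; 1 ? 0 1]`.
-/

open Matrix

namespace Q5.MinRank.Two

variable {F : Type*} [Field F]

/-- The partial matrix `[0 1 ? 1; ? 0 1 1; 1 ? 0 1]`. -/
def A34 : PMat F 3 4 :=
  ![![some 0, some 1, none, some 1], ![none, some 0, some 1, some 1],
    ![some 1, none, some 0, some 1]]

theorem completes_iff (B : Matrix (Fin 3) (Fin 4) F) (hB : Completes A34 B) :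
    B 0 0 = 0 ∧ B 0 1 = 1 ∧ B 0 3 = 1 ∧ B 1 1 = 0 ∧ B 1 2 = 1 ∧ B 1 3 = 1 ∧ B 2 0 = 1 ∧
      B 2 2 = 0 ∧ B 2 3 = 1 :=
  ⟨hB 0 0 _ rfl, hB 0 1 _ rfl, hB 0 3 _ rfl, hB 1 1 _ rfl, hB 1 2 _ rfl, hB 1 3 _ rfl,
    hB 2 0 _ rfl, hB 2 2 _ rfl, hB 2 3 _ rfl⟩

theorem three_le_of_det (B : Matrix (Fin 3) (Fin 4) F) (c : Fin 3 → Fin 4)
    (h : (B.submatrix id c).det ≠ 0) : 3 ≤ B.rank := by
  have h1 := rank_of_isUnit (B.submatrix id c)
    ((isUnit_iff_isUnit_det _).mpr (isUnit_iff_ne_zero.mpr h))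
  have h2 := rank_submatrix_le B id c
  rw [h1] at h2
  simpa using h2

theorem three_le_mr (hF : ∀ x : F, x = 0 ∨ x = 1) : 3 ≤ mr (A34 : PMat F 3 4) := by
  apply le_mr
  intro B hB
  obtain ⟨h00, h01, h03, h11, h12, h13, h20, h22, h23⟩ := completes_iff B hB
  have hdet : (B.submatrix id ![0, 1, 2]).det = 1 + B 0 2 * (B 1 0 * B 2 1) := by
    rw [det_fin_three]
    simp [h00, h01, h11, h12, h20, h22]
    ring
  have hdet' : (B.submatrix id ![0, 1, 3]).det = 1 - B 1 0 + B 1 0 * B 2 1 := by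
    rw [det_fin_three]
    simp [h00, h01, h11, h03, h13, h20, h23]
    ring
  rcases hF (B 0 2) with e | e
  · exact three_le_of_det B ![0, 1, 2] (by rw [hdet, e]; simp)
  rcases hF (B 1 0) with e1 | e1
  · exact three_le_of_det B ![0, 1, 2] (by rw [hdet, e1]; simp)
  rcases hF (B 2 1) with e2 | e2
  · exact three_le_of_det B ![0, 1, 2] (by rw [hdet, e2]; simp)
  · exact three_le_of_det B ![0, 1, 3] (by rw [hdet', e1, e2]; simp)

theorem two_eq_zero (hF : ∀ x : F, x = 0 ∨ x = 1) : (1 : F) + 1 = 0 := by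
  rcases hF (1 + 1) with h | h
  · exact h
  · exact absurd (by linear_combination h : (1 : F) = 0) one_ne_zero

theorem le_mrb_A34 (b : ℕ) : 2 * b ≤ mrb (A34 : PMat F 3 4) b := by
  apply le_mrb
  intro B hB
  have h := rank_submatrix_le B
    (Sum.elim (fun s : Fin b => ((0 : Fin 3), s)) (fun s => ((2 : Fin 3), s)))
    (Sum.elim (fun s : Fin b => ((1 : Fin 4), s)) (fun s => ((0 : Fin 4), s)))
  obtain ⟨Z, hZ⟩ : ∃ Z : Matrix (Fin b) (Fin b) F, ∀ s t, Z s t = B (2, s) (1, t) :=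
    ⟨of fun s t => B (2, s) (1, t), fun s t => rfl⟩
  have h1 : B.submatrix
      (Sum.elim (fun s : Fin b => ((0 : Fin 3), s)) (fun s => ((2 : Fin 3), s)))
      (Sum.elim (fun s : Fin b => ((1 : Fin 4), s)) (fun s => ((0 : Fin 4), s))) =
      fromBlocks 1 0 Z 1 := by
    ext i j
    rcases i with i | i <;> rcases j with j | j
    · rw [fromBlocks_apply₁₁, one_apply]
      exact hB 0 1 1 rfl i j
    · rw [fromBlocks_apply₁₂]
      exact (hB 0 0 0 rfl i j).trans (ite_self _)
    · rw [fromBlocks_apply₂₁, hZ]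
      rfl
    · rw [fromBlocks_apply₂₂, one_apply]
      exact hB 2 0 1 rfl i j
  have h2 : (fromBlocks (1 : Matrix (Fin b) (Fin b) F) 0 Z
      (1 : Matrix (Fin b) (Fin b) F)).det ≠ 0 := by
    rw [det_fromBlocks_zero₁₂, det_one, mul_one]
    exact one_ne_zero
  have h3 := rank_of_isUnit _ ((isUnit_iff_isUnit_det _).mpr (isUnit_iff_ne_zero.mpr h2))
  rw [h1, h3] at h
  simp at h
  omega

/-- The left factor: the blocks `I, 0; 0, I; M, M²`. -/
def P (F : Type*) [Field F] (i : Fin 3) (k : Fin 2) : Matrix (Fin 2) (Fin 2) F :=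
  if i = 0 then (if k = 0 then !![1, 0; 0, 1] else !![0, 0; 0, 0])
  else if i = 1 then (if k = 0 then !![0, 0; 0, 0] else !![1, 0; 0, 1])
  else (if k = 0 then !![0, 1; 1, 1] else !![1, 1; 1, 0])

/-- The right factor: the blocks `0, I, M, I; M, 0, I, I`. -/
def Q (F : Type*) [Field F] (k : Fin 2) (j : Fin 4) : Matrix (Fin 2) (Fin 2) F :=
  if k = 0 then
    (if j = 0 then !![0, 0; 0, 0] else if j = 2 then !![0, 1; 1, 1] else !![1, 0; 0, 1])
  else
    (if j = 0 then !![0, 1; 1, 1] else if j = 1 then !![0, 0; 0, 0] else !![1, 0; 0, 1])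

/-- The left factor as a matrix. -/
def PP (F : Type*) [Field F] : Matrix (Fin 3 × Fin 2) (Fin 2 × Fin 2) F :=
  fun i k => P F i.1 k.1 i.2 k.2

/-- The right factor as a matrix. -/
def QQ (F : Type*) [Field F] : Matrix (Fin 2 × Fin 2) (Fin 4 × Fin 2) F :=
  fun k j => Q F k.1 j.1 k.2 j.2

theorem blockCompletes (hF : ∀ x : F, x = 0 ∨ x = 1) :
    BlockCompletes (A34 : PMat F 3 4) 2 (PP F * QQ F) := by
  have h2 := two_eq_zero hF
  intro i j a h s t
  rw [mul_apply, Fintype.sum_prod_type]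
  simp only [Fin.sum_univ_two, PP, QQ]
  fin_cases i <;> fin_cases j <;> simp [A34] at h <;> subst h <;>
    fin_cases s <;> fin_cases t <;> simp [P, Q] <;> linear_combination h2

theorem mrb_two_le (hF : ∀ x : F, x = 0 ∨ x = 1) : mrb (A34 : PMat F 3 4) 2 ≤ 2 * 2 := by
  apply mrb_le (blockCompletes hF)
  refine (rank_mul_le_left _ _).trans ((rank_le_card_width _).trans ?_)
  simp

/-! ### Triangular subpatterns -/

theorem mr_le_two {A : PMat F 3 4} (X : Matrix (Fin 3) (Fin 2) F) (Y : Matrix (Fin 2) (Fin 4) F)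
    (h : Completes A (X * Y)) : mr A ≤ 2 :=
  mr_le h ((rank_mul_le_left _ _).trans ((rank_le_card_width _).trans (by simp)))

theorem restrict_completes {T : Set (Fin 3 × Fin 4)} (B : Matrix (Fin 3) (Fin 4) F)
    (h : ∀ i j, (i, j) ∈ T → ∀ a, A34 i j = some a → B i j = a) :
    Completes (restrict A34 T) B := by
  intro i j a ha
  have hmem : (i, j) ∈ T := by
    by_contra hcon
    simp [restrict, hcon] at ha
  exact h i j hmem a (by simpa [restrict, hmem] using ha)

theorem mr_restrict_le (T : Set (Fin 3 × Fin 4)) (hT : IsTriangular T)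
    (hTJ : T ⊆ known (A34 : PMat F 3 4)) : mr (restrict (A34 : PMat F 3 4) T) ≤ 2 := by
  have n02 : ((0 : Fin 3), (2 : Fin 4)) ∉ T := fun h => hTJ h rfl
  have n10 : ((1 : Fin 3), (0 : Fin 4)) ∉ T := fun h => hTJ h rfl
  have n21 : ((2 : Fin 3), (1 : Fin 4)) ∉ T := fun h => hTJ h rfl
  have m1 : ((0 : Fin 3), (0 : Fin 4)) ∉ T ∨ ((1 : Fin 3), (2 : Fin 4)) ∉ T := by
    by_contra hcon
    push Not at hcon
    exact (hT _ _ _ _ hcon.1 hcon.2).elim n02 n10
  have m2 : ((0 : Fin 3), (1 : Fin 4)) ∉ T ∨ ((2 : Fin 3), (2 : Fin 4)) ∉ T := by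
    by_contra hcon
    push Not at hcon
    exact (hT _ _ _ _ hcon.1 hcon.2).elim n02 n21
  have m3 : ((1 : Fin 3), (1 : Fin 4)) ∉ T ∨ ((2 : Fin 3), (0 : Fin 4)) ∉ T := by
    by_contra hcon
    push Not at hcon
    exact (hT _ _ _ _ hcon.1 hcon.2).elim n10 n21
  rcases m1 with m1 | m1 <;> rcases m2 with m2 | m2 <;> rcases m3 with m3 | m3
  · refine mr_le_two !![1, 0; 1, 0; 0, 1] !![0, 0, 1, 1; 1, 0, 0, 1] (restrict_completes _ ?_)
    intro i j hmem a ha
    fin_cases i <;> fin_cases j <;> first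
      | exact absurd hmem m1
      | exact absurd hmem m2
      | exact absurd hmem m3
      | (simp [A34] at ha; done)
      | (simp [A34] at ha; subst ha; simp [mul_apply, Fin.sum_univ_two])
  · refine mr_le_two !![1, 0; 1, 0; 0, 1] !![0, 0, 1, 1; 0, 0, 0, 1] (restrict_completes _ ?_)
    intro i j hmem a ha
    fin_cases i <;> fin_cases j <;> first
      | exact absurd hmem m1
      | exact absurd hmem m2
      | exact absurd hmem m3
      | (simp [A34] at ha; done)
      | (simp [A34] at ha; subst ha; simp [mul_apply, Fin.sum_univ_two])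
  · refine mr_le_two !![1, 0; 1, 0; 1, 0] !![1, 1, 1, 1; 0, 0, 0, 1] (restrict_completes _ ?_)
    intro i j hmem a ha
    fin_cases i <;> fin_cases j <;> first
      | exact absurd hmem m1
      | exact absurd hmem m2
      | exact absurd hmem m3
      | (simp [A34] at ha; done)
      | (simp [A34] at ha; subst ha; simp [mul_apply, Fin.sum_univ_two])
  · refine mr_le_two !![1, 0; 0, 1; 1, 0] !![0, 1, 0, 1; 0, 0, 1, 1] (restrict_completes _ ?_)
    intro i j hmem a ha
    fin_cases i <;> fin_cases j <;> first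
      | exact absurd hmem m1
      | exact absurd hmem m2
      | exact absurd hmem m3
      | (simp [A34] at ha; done)
      | (simp [A34] at ha; subst ha; simp [mul_apply, Fin.sum_univ_two])
  · refine mr_le_two !![1, 0; 1, 0; 0, 1] !![0, 0, 0, 1; 1, 0, 0, 1] (restrict_completes _ ?_)
    intro i j hmem a ha
    fin_cases i <;> fin_cases j <;> first
      | exact absurd hmem m1
      | exact absurd hmem m2
      | exact absurd hmem m3
      | (simp [A34] at ha; done)
      | (simp [A34] at ha; subst ha; simp [mul_apply, Fin.sum_univ_two])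
  · refine mr_le_two !![1, 0; 1, 0; 1, 0] !![0, 0, 0, 1; 1, 0, 0, 1] (restrict_completes _ ?_)
    intro i j hmem a ha
    fin_cases i <;> fin_cases j <;> first
      | exact absurd hmem m1
      | exact absurd hmem m2
      | exact absurd hmem m3
      | (simp [A34] at ha; done)
      | (simp [A34] at ha; subst ha; simp [mul_apply, Fin.sum_univ_two])
  · refine mr_le_two !![1, 0; 1, 0; 0, 1] !![0, 1, 0, 1; 1, 0, 0, 1] (restrict_completes _ ?_)
    intro i j hmem a ha
    fin_cases i <;> fin_cases j <;> first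
      | exact absurd hmem m1
      | exact absurd hmem m2
      | exact absurd hmem m3
      | (simp [A34] at ha; done)
      | (simp [A34] at ha; subst ha; simp [mul_apply, Fin.sum_univ_two])
  · refine mr_le_two !![1, 0; 0, 1; 0, 1] !![0, 1, 0, 1; 0, 0, 0, 1] (restrict_completes _ ?_)
    intro i j hmem a ha
    fin_cases i <;> fin_cases j <;> first
      | exact absurd hmem m1
      | exact absurd hmem m2
      | exact absurd hmem m3
      | (simp [A34] at ha; done)
      | (simp [A34] at ha; subst ha; simp [mul_apply, Fin.sum_univ_two])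

/-- A maximal triangular subpattern. -/
def T0 : Set (Fin 3 × Fin 4) := {p | p.2 = 3 ∨ p = (0, 0) ∨ p = (0, 1) ∨ p = (2, 0)}

theorem T0_max : IsMaxTriangular (known (A34 : PMat F 3 4)) T0 := by
  refine ⟨?_, ?_, ?_⟩
  · intro i j k l
    simp only [T0, Set.mem_ofPred_eq]
    revert i j k l
    decide
  · rintro ⟨i, j⟩ h
    rw [mem_known]
    simp only [T0, Set.mem_ofPred_eq] at h
    rcases h with h | h | h | h
    · subst h
      fin_cases i <;> simp [A34]
    · simp only [Prod.mk.injEq] at h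
      obtain ⟨rfl, rfl⟩ := h
      simp [A34]
    · simp only [Prod.mk.injEq] at h
      obtain ⟨rfl, rfl⟩ := h
      simp [A34]
    · simp only [Prod.mk.injEq] at h
      obtain ⟨rfl, rfl⟩ := h
      simp [A34]
  · intro S hS hSJ hle
    have n02 : ((0 : Fin 3), (2 : Fin 4)) ∉ S := fun h => hSJ h rfl
    have n10 : ((1 : Fin 3), (0 : Fin 4)) ∉ S := fun h => hSJ h rfl
    have n21 : ((2 : Fin 3), (1 : Fin 4)) ∉ S := fun h => hSJ h rfl
    have y00 : ((0 : Fin 3), (0 : Fin 4)) ∈ S := hle (by simp [T0])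
    have y01 : ((0 : Fin 3), (1 : Fin 4)) ∈ S := hle (by simp [T0])
    have y20 : ((2 : Fin 3), (0 : Fin 4)) ∈ S := hle (by simp [T0])
    have n11 : ((1 : Fin 3), (1 : Fin 4)) ∉ S := fun h => (hS _ _ _ _ h y20).elim n10 n21
    have n12 : ((1 : Fin 3), (2 : Fin 4)) ∉ S := fun h => (hS _ _ _ _ h y00).elim n10 n02
    have n22 : ((2 : Fin 3), (2 : Fin 4)) ∉ S := fun h => (hS _ _ _ _ h y01).elim n21 n02
    apply Set.Subset.antisymm _ hle
    rintro ⟨i, j⟩ h
    by_contra hcon
    simp only [T0, Set.mem_ofPred_eq] at hcon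
    fin_cases i <;> fin_cases j <;> first
      | exact n02 h
      | exact n10 h
      | exact n21 h
      | exact n11 h
      | exact n12 h
      | exact n22 h
      | (apply hcon; simp)

theorem two_le : 2 ≤ mr (restrict (A34 : PMat F 3 4) T0) := by
  apply le_mr
  intro B hB
  have e01 : B 0 1 = 1 := hB 0 1 1 (by simp [restrict, T0, A34])
  have e00 : B 0 0 = 0 := hB 0 0 0 (by simp [restrict, T0, A34])
  have e20 : B 2 0 = 1 := hB 2 0 1 (by simp [restrict, T0, A34])
  have hdet : (B.submatrix ![0, 2] ![1, 0]).det ≠ 0 := by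
    rw [det_fin_two]
    simp [e00, e01, e20]
  have h1 := rank_of_isUnit _ ((isUnit_iff_isUnit_det _).mpr (isUnit_iff_ne_zero.mpr hdet))
  have h2 := rank_submatrix_le B ![0, 2] ![1, 0]
  rw [h1] at h2
  simpa using h2

theorem main (hF : ∀ x : F, x = 0 ∨ x = 1) :
    tmr (A34 : PMat F 3 4) = 2 ∧ fmr (A34 : PMat F 3 4) = (2 : ℕ) ∧ 3 ≤ mr (A34 : PMat F 3 4) :=
  ⟨tmr_eq (fun T hT hTJ => mr_restrict_le T hT hTJ) ⟨T0, T0_max, two_le⟩,
    fmr_eq (fun b _ => le_mrb_A34 b) (mrb_two_le hF), three_le_mr hF⟩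

end Q5.MinRank.Two
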